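import Pool.Agent.X234.OT.Final

set_option autoImplicit false

/-!
# MP_6a769b_co, Q1: the number of order types near convex position is `2 ^ Θ(n)`

For every fixed `k ≥ 2` the number `c_k(n)` of order types of `n`-point planar configurations from
which fewer than `k` points can be removed to reach convex position satisfies
`log c_k(n) = Θ(n)`.
-/

namespace Pool.Agent.Results.MP_6a769b_co.LinearLog

open Pool.Agent.X234.OT

/-- For each `k ≥ 2`, `log c_k(n) = Θ(n)` as `n → ∞`. -/
theorem result : ∀ k : ℕ, 2 ≤ k →
    (fun n : ℕ => Real.log (c k n : ℝ)) =Θ[Filter.atTop] (fun n : ℕ => (n : ℝ)) :=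
  fun _ hk => theta hk

end Pool.Agent.Results.MP_6a769b_co.LinearLog
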